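import Mathlib

set_option autoImplicit false

namespace Pool.Agent.Results.MP_091b59_co.BoundedExclusive

open Finset

variable {V : Type}

/-- The sum index `σ(G)`. -/
noncomputable def sumIndex (G : SimpleGraph V) : ℕ :=
  sInf {k | ∃ f : V → ℤ, Function.Injective f ∧ {s | ∃ u v, G.Adj u v ∧ f u + f v = s}.ncard = k}

/-- `G` with `r` new isolated vertices is a sum graph via an exclusive labelling. -/
def Exclusive (G : SimpleGraph V) (r : ℕ) : Prop :=
  ∃ g : V ⊕ Fin r → ℤ, Function.Injective g ∧ (∀ x, 0 < g x) ∧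
    (∀ x y, x ≠ y → ((G ⊕g (⊥ : SimpleGraph (Fin r))).Adj x y ↔ ∃ w, g x + g y = g w)) ∧
    ∀ u v, G.Adj u v → ∃ i, g (.inl u) + g (.inl v) = g (.inr i)

theorem of_lab [Finite V] (G : SimpleGraph V) (g : V → ℕ) (hg : Function.Injective g)
    (h : ∀ u v u' v', u ≠ v → G.Adj u' v' → g u + g v = g u' + g v' → G.Adj u v) (T : Finset ℕ)
    (hT : ∀ s, s ∈ T ↔ ∃ u v, G.Adj u v ∧ g u + g v = s) : Exclusive G #T := by
  refine ⟨Sum.elim (fun v => 4 * g v + 1) fun i => 4 * (T.equivFin.symm i : ℕ) + 2, ?_, ?_, ?_,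
    fun u v huv => ?_⟩
  · rintro (x | x) (y | y) e <;> simp only [Sum.elim_inl, Sum.elim_inr] at e
    · rw [hg (by omega : g x = g y)]
    · omega
    · omega
    · rw [T.equivFin.symm.injective (Subtype.ext (by omega) : T.equivFin.symm x = T.equivFin.symm y)]
  · rintro (x | x) <;> simp only [Sum.elim_inl, Sum.elim_inr] <;> omega
  · rintro (x | x) (y | y) hxy <;>
      simp only [Sum.exists, Sum.elim_inl, Sum.elim_inr, SimpleGraph.sum_adj, SimpleGraph.bot_adj]
    · constructor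
      · intro a
        refine .inr ⟨T.equivFin ⟨_, (hT _).2 ⟨x, y, a, rfl⟩⟩, ?_⟩
        simp only [Equiv.symm_apply_apply]
        omega
      · rintro (⟨w, e⟩ | ⟨w, e⟩)
        · omega
        · obtain ⟨u, v, k1, k2⟩ := (hT _).1 (T.equivFin.symm w).2
          exact h x y u v (fun e => hxy (e ▸ rfl)) k1 (by omega)
    all_goals
      refine ⟨False.elim, ?_⟩
      rintro (⟨w, e⟩ | ⟨w, e⟩) <;> omega
  · refine ⟨T.equivFin ⟨_, (hT _).2 ⟨u, v, huv, rfl⟩⟩, ?_⟩
    simp only [Sum.elim_inl, Sum.elim_inr, Equiv.symm_apply_apply]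
    omega

/-- `ε(G) ≤ σ(G) · 3 ^ σ(G)`. -/
theorem result (V : Type) [Finite V] (G : SimpleGraph V) :
    ∃ r ≤ sumIndex G * 3 ^ sumIndex G, Exclusive G r := by
  classical
  have := Fintype.ofFinite V
  obtain ⟨f, hf, hS⟩ : sumIndex G ∈ {k | ∃ f : V → ℤ, Function.Injective f ∧
      {s | ∃ u v, G.Adj u v ∧ f u + f v = s}.ncard = k} :=
    Nat.sInf_mem ⟨_, fun v => (Fintype.equivFin V v : ℕ), fun a b h =>
      (Fintype.equivFin V).injective (Fin.ext (Nat.cast_injective (R := ℤ) h)), rfl⟩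
  generalize sumIndex G = C at hS
  have hfin : {s | ∃ u v, G.Adj u v ∧ f u + f v = s}.Finite :=
    (Set.finite_range fun p : V × V => f p.1 + f p.2).subset fun _ ⟨u, v, _, h⟩ => ⟨(u, v), h⟩
  rw [Set.ncard_eq_toFinset_card _ hfin] at hS
  obtain ⟨S, rfl, hm⟩ : ∃ S : Finset ℤ, #S = C ∧ ∀ s, s ∈ S ↔ ∃ u v, G.Adj u v ∧ f u + f v = s :=
    ⟨_, hS, fun s => hfin.mem_toFinset⟩
  let b : V → Fin #S → ℕ := fun v i =>
    if ∃ w, G.Adj v w ∧ f v + f w = S.equivFin.symm i then 1 else 0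
  have hb : ∀ v i, b v i ≤ 1 := fun v i => by simp only [b]; split_ifs <;> omega
  let B : V → ℕ := fun v => ∑ i, b v i * 3 ^ i.1
  let c : V → V → Fin #S → Fin 3 := fun u v i => ⟨b u i + b v i, by
    have := hb u i; have := hb v i; omega⟩
  have hB : ∀ u v, B u + B v = finFunctionFinEquiv (c u v) := fun u v => by
    simp only [finFunctionFinEquiv_apply, B, c, add_mul, sum_add_distrib]
  let K : ℤ := ∑ v, |f v|
  have hK : ∀ v, 0 ≤ f v + K := fun v => by
    have := single_le_sum (f := fun v => |f v|) (fun v _ => abs_nonneg _) (mem_univ v)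
    have := neg_abs_le (f v)
    simp only [K]
    omega
  let F : V → ℕ := fun v => (f v + K).toNat
  have hF : ∀ v, (F v : ℤ) = f v + K := fun v => Int.toNat_of_nonneg (hK v)
  let g : V → ℕ := fun v => 3 ^ #S * F v + B v
  have e : ∀ u v, g u + g v = finFunctionFinEquiv (c u v) + 3 ^ #S * (F u + F v) := fun u v => by
    rw [← hB]; simp only [g]; ring
  have key : ∀ u v u' v', g u + g v = g u' + g v' →
      f u + f v = f u' + f v' ∧ c u v = c u' v' := fun u v u' v' h => by
    rw [e, e] at h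
    have h1 := congrArg (· % 3 ^ #S) h
    simp only [Nat.add_mul_mod_self_left, Nat.mod_eq_of_lt (Fin.is_lt _)] at h1
    rw [h1, add_right_inj, Nat.mul_right_inj (by positivity)] at h
    have := hF u
    have := hF v
    have := hF u'
    have := hF v'
    exact ⟨by omega, finFunctionFinEquiv.injective (Fin.ext h1)⟩
  refine ⟨_, ?_, of_lab G g (fun u v h => hf ?_) (fun u v u' v' n a h => ?_)
    (({p | G.Adj p.1 p.2} : Finset (V × V)).image fun p => g p.1 + g p.2) (by simp)⟩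
  · refine le_trans (card_le_card (t := (S ×ˢ range (3 ^ #S)).image
      fun q => q.2 + 3 ^ #S * (q.1 + 2 * K).toNat) fun s hs => ?_) (card_image_le.trans (by simp))
    obtain ⟨⟨u, v⟩, h1, rfl⟩ := mem_image.1 hs
    refine mem_image.2 ⟨(f u + f v, finFunctionFinEquiv (c u v)), mem_product.2
      ⟨(hm _).2 ⟨u, v, (mem_filter.1 h1).2, rfl⟩, mem_range.2 (Fin.is_lt _)⟩, ?_⟩
    have := hF u
    have := hF v
    rw [e, show F u + F v = (f u + f v + 2 * K).toNat by omega]
  · have := (key u u v v (by rw [h])).1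
    omega
  · obtain ⟨k1, k2⟩ := key _ _ _ _ h
    let i := S.equivFin ⟨_, (hm _).2 ⟨u', v', a, rfl⟩⟩
    have t : (S.equivFin.symm i : ℤ) = f u' + f v' := by simp [i]
    have k3 : b u i + b v i = b u' i + b v' i := congrArg (fun z => (z i).1) k2
    have t1 : b u' i = 1 := if_pos ⟨v', a, t.symm⟩
    have t2 : b v' i = 1 := if_pos ⟨u', a.symm, by omega⟩
    have t3 := hb v i
    by_contra hc
    have : b u i = 0 := if_neg fun ⟨w, w1, w2⟩ => hc (hf (show f w = f v by omega) ▸ w1)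
    omega

end Pool.Agent.Results.MP_091b59_co.BoundedExclusive
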